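import Mathlib

/-!
# Elements of unit stable range one are not closed under multiplication

In the commutative ring `C([0,1], ℝ)` the functions `x` and `1 - x` have unit stable range one but
their product `x (1 - x)` does not.
-/

namespace Pool.Agent.Results.MP_5a9afa_al.UnitStableRangeProduct

open unitInterval

/-- `a` has unit stable range one: whenever `R a + R b = R`, some `a + u b` with `u` a unit is a
unit. -/
def USR1 {R : Type*} [Ring R] (a : R) : Prop :=
  ∀ b : R, (∃ r s : R, r * a + s * b = 1) → ∃ u : R, IsUnit u ∧ IsUnit (a + u * b)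

/-- If `a ≥ 0`, and `s b > 0` on the zero set of `a`, for a sign `s`, then some `a + u b` is a
unit with `u` a unit. -/
theorem pos_case (a b : C(I, ℝ)) (ha : ∀ x, 0 ≤ a x) (s : ℝ) (hs : s = 1 ∨ s = -1)
    (hb : ∀ x, a x = 0 → 0 < s * b x) : ∃ u : C(I, ℝ), IsUnit u ∧ IsUnit (a + u * b) := by
  have hs2 : s * s = 1 := by rcases hs with rfl | rfl <;> norm_num
  have hs0 : s ≠ 0 := by rcases hs with rfl | rfl <;> norm_num
  have hpos : ∀ x, 0 < a x + max (s * b x) 0 := by
    intro x
    rcases (ha x).eq_or_lt with h | h
    · have := hb x h.symm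
      have h2 := le_max_left (s * b x) 0
      linarith
    · have h2 := le_max_right (s * b x) 0
      linarith
  have hden : ∀ x, 0 < 1 + |s * b x| := fun x => by positivity
  let u : C(I, ℝ) := ⟨fun x => s * ((a x + max (s * b x) 0) / (1 + |s * b x|)), by
    apply Continuous.mul continuous_const
    apply Continuous.div
    · exact a.continuous.add ((continuous_const.mul b.continuous).max continuous_const)
    · exact continuous_const.add (continuous_const.mul b.continuous).abs
    · exact fun x => (hden x).ne'⟩
  have hu : ∀ x, u x = s * ((a x + max (s * b x) 0) / (1 + |s * b x|)) := fun x => rfl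
  refine ⟨u, ?_, ?_⟩
  · rw [ContinuousMap.isUnit_iff_forall_ne_zero]
    intro x
    rw [hu]
    exact mul_ne_zero hs0 (div_pos (hpos x) (hden x)).ne'
  · rw [ContinuousMap.isUnit_iff_forall_ne_zero]
    intro x
    apply ne_of_gt
    rw [ContinuousMap.add_apply, ContinuousMap.mul_apply, hu]
    set β := s * b x with hβ
    have e : s * ((a x + max β 0) / (1 + |β|)) * b x = (a x + max β 0) / (1 + |β|) * β := by
      rw [hβ]; ring
    rw [e]
    have hd := hden x
    have hp := hpos x
    rcases le_or_gt 0 β with h | h
    · have h1 : 0 ≤ (a x + max β 0) / (1 + |β|) * β := by positivity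
      rcases (ha x).eq_or_lt with h2 | h2
      · have h3 : 0 < β := hb x h2.symm
        have : 0 < (a x + max β 0) / (1 + |β|) * β := mul_pos (div_pos hp hd) h3
        linarith
      · linarith
    · have h3 : max β 0 = 0 := max_eq_right h.le
      have h4 : 0 < a x := by
        rcases (ha x).eq_or_lt with h2 | h2
        · have := hb x h2.symm
          linarith
        · exact h2
      rw [h3, add_zero, abs_of_neg h]
      rw [abs_of_neg h] at hd
      have : a x + a x / (1 + -β) * β = a x / (1 + -β) := by
        field_simp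
        ring
      rw [this]
      exact div_pos h4 hd

/-- A nonnegative function with at most one zero has unit stable range one. -/
theorem usr1_of_one_zero (a : C(I, ℝ)) (ha : ∀ x, 0 ≤ a x) (p : I) (hp : ∀ x, a x = 0 → x = p)
    (hp0 : a p = 0) : USR1 a := by
  rintro b ⟨r, s, hrs⟩
  have hbp : b p ≠ 0 := by
    intro h
    have := congrArg (fun f : C(I, ℝ) => f p) hrs
    simp [hp0, h] at this
  rcases lt_or_gt_of_ne hbp with h | h
  · exact pos_case a b ha (-1) (Or.inr rfl) (fun x hx => by rw [hp x hx]; linarith)
  · exact pos_case a b ha 1 (Or.inl rfl) (fun x hx => by rw [hp x hx]; linarith)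

/-- the function `x` -/
def fa : C(I, ℝ) := ⟨fun x => (x : ℝ), continuous_subtype_val⟩

/-- the function `1 - x` -/
def fb : C(I, ℝ) := ⟨fun x => 1 - (x : ℝ), continuous_const.sub continuous_subtype_val⟩

/-- the function `1 - 2 x` -/
def fc : C(I, ℝ) :=
  ⟨fun x => 1 - 2 * (x : ℝ), continuous_const.sub (continuous_const.mul continuous_subtype_val)⟩

theorem usr1_fa : USR1 fa :=
  usr1_of_one_zero fa (fun x => x.2.1) 0 (fun _ hx => Subtype.ext hx) rfl

theorem usr1_fb : USR1 fb :=
  usr1_of_one_zero fb (fun x => sub_nonneg.2 x.2.2) 1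
    (fun x hx => Subtype.ext (by
      have h1 : 1 - (x : ℝ) = 0 := hx
      change (x : ℝ) = 1
      linarith))
    (by simp [fb])

theorem not_usr1 : ¬ USR1 (fa * fb) := by
  intro h
  obtain ⟨u, hu, hv⟩ := h fc ⟨4, fc, by
    ext x
    have h4 : ((4 : C(I, ℝ)) x) = 4 := rfl
    simp only [ContinuousMap.add_apply, ContinuousMap.mul_apply, ContinuousMap.one_apply, h4]
    change 4 * ((x : ℝ) * (1 - (x : ℝ))) + (1 - 2 * (x : ℝ)) * (1 - 2 * (x : ℝ)) = 1
    ring⟩
  rw [ContinuousMap.isUnit_iff_forall_ne_zero] at hu hv
  -- a nowhere vanishing function has constant sign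
  have key : ∀ f : C(I, ℝ), (∀ x, f x ≠ 0) → 0 < f 0 * f 1 := by
    intro f hf
    by_contra hcon
    push Not at hcon
    have hpre := (isPreconnected_univ (α := I)).image f f.continuous.continuousOn
    have h0 : f 0 ∈ f '' Set.univ := ⟨0, trivial, rfl⟩
    have h1 : f 1 ∈ f '' Set.univ := ⟨1, trivial, rfl⟩
    have hz : (0 : ℝ) ∈ f '' Set.univ := by
      rcases le_total (f 0) 0 with h | h
      · rcases le_total (f 1) 0 with h' | h'
        · exfalso
          have := mul_pos_of_neg_of_neg (lt_of_le_of_ne h (hf 0)) (lt_of_le_of_ne h' (hf 1))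
          linarith
        · exact hpre.Icc_subset h0 h1 ⟨h, h'⟩
      · rcases le_total (f 1) 0 with h' | h'
        · exact hpre.Icc_subset h1 h0 ⟨h', h⟩
        · exfalso
          have := mul_pos (lt_of_le_of_ne h (Ne.symm (hf 0))) (lt_of_le_of_ne h' (Ne.symm (hf 1)))
          linarith
    obtain ⟨x, -, hx⟩ := hz
    exact hf x hx
  have h1 := key u hu
  have h2 := key _ hv
  simp only [ContinuousMap.add_apply, ContinuousMap.mul_apply] at h2
  have e0 : fa 0 = 0 := rfl
  have e1 : fb 1 = 0 := by simp [fb]
  have e2 : fc 0 = 1 := by simp [fc]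
  have e3 : fc 1 = -1 := by simp [fc]; norm_num
  rw [e0, e1, e2, e3] at h2
  nlinarith

/-- **Main result**: there is a (commutative) ring with two elements of unit stable range one whose
product does not have unit stable range one. -/
theorem result : ∃ (R : Type) (_ : CommRing R) (a b : R), USR1 a ∧ USR1 b ∧ ¬ USR1 (a * b) :=
  ⟨C(I, ℝ), inferInstance, fa, fb, usr1_fa, usr1_fb, not_usr1⟩

end Pool.Agent.Results.MP_5a9afa_al.UnitStableRangeProduct
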